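import Mathlib

set_option autoImplicit false

/-!
# Bent functions which no linear map brings to the extremal value distribution of type (-)

Let `k ≥ 7` and let `K` be the field with `2 ^ k` elements. For a map `g : K → K` the function
`F (x, y) = x y + g y` is bent. If `F + L` is almost balanced of type `(-)`, where
`L (x, y) = A x + B y`, then for some `α` the equation `x y + g y + A x + B y = α` has exactly one
solution. For every `y` for which `M y : x ↦ A x + x y` is invertible there is one solution. As the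
`2 ^ k - 1` elements `x ≠ 0` are in the kernel of exactly one `M y` each, there is exactly one `y = y₀`
such that `M y` is invertible and for all other `y` the rank of `M y` is `k - 1`. So `g y` is in a set
with `2 ^ (k - 1)` elements for all `y ≠ y₀`. The number of triples `(A, B, α)` is
`2 ^ (2 k ^ 2 + k)`, and less than `2 ^ (2 ^ k - 1)`, so some `g` works.
-/

namespace Pool.Agent.Results.MP_7d7944_co.NoMinus

open Finset

/-- `F` is bent: for `a ≠ 0` the derivative in direction `a` takes each value `2 ^ (n - m)` times. -/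
def IsBent {n m : ℕ} (F : (Fin n → ZMod 2) → (Fin m → ZMod 2)) : Prop :=
  ∀ a, a ≠ 0 → ∀ b, (univ.filter fun x => F (x + a) + F x = b).card = 2 ^ (n - m)

/-- the size of the preimage of `b` -/
def pre {n m : ℕ} (F : (Fin n → ZMod 2) → (Fin m → ZMod 2)) (b : Fin m → ZMod 2) : ℤ :=
  ((univ.filter fun x => F x = b).card : ℤ)

/-- `F` is almost balanced of type `(+)`. -/
def IsTypePlus {n m : ℕ} (F : (Fin n → ZMod 2) → (Fin m → ZMod 2)) : Prop :=
  ∃ α, pre F α = 2 ^ (n - m) + 2 ^ (n / 2) - 2 ^ (n / 2 - m) ∧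
    ∀ β, β ≠ α → pre F β = 2 ^ (n - m) - 2 ^ (n / 2 - m)

/-- `F` is almost balanced of type `(-)`. -/
def IsTypeMinus {n m : ℕ} (F : (Fin n → ZMod 2) → (Fin m → ZMod 2)) : Prop :=
  ∃ α, pre F α = 2 ^ (n - m) - 2 ^ (n / 2) + 2 ^ (n / 2 - m) ∧
    ∀ β, β ≠ α → pre F β = 2 ^ (n - m) + 2 ^ (n / 2 - m)

section field

variable {K : Type*} [Field K] [Fintype K] [DecidableEq K] [Algebra (ZMod 2) K]

omit [Fintype K] [DecidableEq K] in
/-- the map `x ↦ A x + x y` -/
def M (A : K →ₗ[ZMod 2] K) (y : K) : K →ₗ[ZMod 2] K :=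
  A + LinearMap.mulRight (ZMod 2) y

omit [Fintype K] [DecidableEq K] in
lemma M_apply (A : K →ₗ[ZMod 2] K) (y x : K) : M A y x = A x + x * y := by
  simp [M]

/-- the number of nonzero elements in the kernel of `M y` -/
def z (A : K →ₗ[ZMod 2] K) (y : K) : ℕ := (univ.filter fun x : K => x ≠ 0 ∧ M A y x = 0).card

lemma sum_z (A : K →ₗ[ZMod 2] K) : ∑ y, z A y = Fintype.card K - 1 := by
  have h1 : ((univ : Finset K).erase 0).card = Fintype.card K - 1 := by
    rw [card_erase_of_mem (mem_univ _), card_univ]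
  rw [← h1]
  rw [card_eq_sum_card_fiberwise (f := fun x : K => -(A x / x)) (t := univ)
    (fun _ _ => mem_coe.2 (mem_univ _))]
  refine sum_congr rfl fun y _ => ?_
  unfold z
  congr 1
  ext x
  simp only [mem_filter, mem_univ, true_and, mem_erase, and_true]
  refine and_congr_right fun hx => ?_
  rw [M_apply, ← neg_div, div_eq_iff hx]
  constructor
  · intro h
    linear_combination -h
  · intro h
    linear_combination -h

lemma inj_of_z (A : K →ₗ[ZMod 2] K) (y : K) (h : z A y = 0) : Function.Bijective (M A y) := by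
  have h1 : Function.Injective (M A y) := by
    rw [injective_iff_map_eq_zero]
    intro x hx
    by_contra hne
    rw [z, card_eq_zero] at h
    have : x ∈ (univ.filter fun x : K => x ≠ 0 ∧ M A y x = 0) := by simp [hne, hx]
    rw [h] at this
    simp at this
  exact Finite.injective_iff_bijective.1 h1

/-- the set of all solutions of `x y + g y + A x + B y = α` -/
def sols (A B : K →ₗ[ZMod 2] K) (g : K → K) (α : K) : Finset (K × K) :=
  univ.filter fun p => (p.1 * p.2 + g p.2) + (A p.1 + B p.2) = α

/-- the possible values of `g y` -/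
def S (A B : K →ₗ[ZMod 2] K) (α y : K) : Finset K :=
  univ.filter fun s => ∀ x, M A y x ≠ α - B y - s

lemma exists_y0 (A B : K →ₗ[ZMod 2] K) (g : K → K) (α : K) (h : (sols A B g α).card = 1) :
    ∃ y0, ∀ y, y ≠ y0 → z A y = 1 ∧ g y ∈ S A B α y := by
  -- every y with z = 0 gives a solution
  obtain ⟨p, hp⟩ := card_eq_one.1 h
  have hmem : ∀ q : K × K, (q.1 * q.2 + g q.2) + (A q.1 + B q.2) = α → q = p := by
    intro q hq
    have : q ∈ sols A B g α := by simp [sols, hq]
    rw [hp] at this
    exact mem_singleton.1 this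
  have h0 : ∀ y, z A y = 0 → y = p.2 := by
    intro y hy
    obtain ⟨x, hx⟩ := (inj_of_z A y hy).2 (α - B y - g y)
    rw [M_apply] at hx
    have := hmem (x, y) (by simp only; linear_combination hx)
    rw [← this]
  have hz : ∀ y, y ≠ p.2 → 1 ≤ z A y := by
    intro y hy
    by_contra hc
    exact hy (h0 y (by omega))
  have hsum := sum_z A
  have hcard : 1 ≤ Fintype.card K := Fintype.card_pos
  have hsum2 : ∑ y ∈ univ.erase p.2, z A y + z A p.2 = Fintype.card K - 1 := by
    rw [← hsum, sum_erase_add _ _ (mem_univ _)]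
  have hce : ((univ : Finset K).erase p.2).card = Fintype.card K - 1 := by
    rw [card_erase_of_mem (mem_univ _), card_univ]
  have h3 : ∑ y ∈ univ.erase p.2, (z A y - 1) + (Fintype.card K - 1) =
      ∑ y ∈ univ.erase p.2, z A y := by
    rw [← hce, card_eq_sum_ones, ← sum_add_distrib]
    refine sum_congr rfl fun y hy => ?_
    have := hz y (ne_of_mem_erase hy)
    omega
  have h4 : ∑ y ∈ univ.erase p.2, (z A y - 1) = 0 := by omega
  have h5 : z A p.2 = 0 := by omega
  have h6 : ∀ y, y ≠ p.2 → z A y = 1 := by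
    intro y hy
    have h7 := (sum_eq_zero_iff.1 h4) y (mem_erase.2 ⟨hy, mem_univ _⟩)
    have := hz y hy
    omega
  refine ⟨p.2, fun y hy => ⟨h6 y hy, ?_⟩⟩
  simp only [S, mem_filter, mem_univ, true_and]
  intro x hx
  rw [M_apply] at hx
  have := hmem (x, y) (by simp only; linear_combination hx)
  rw [← this] at hy
  exact hy rfl

lemma card_S (A B : K →ₗ[ZMod 2] K) (α y : K) (h : z A y = 1) :
    2 * (S A B α y).card ≤ Fintype.card K := by
  -- the nonzero element of the kernel
  obtain ⟨w, hw⟩ := card_eq_one.1 h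
  have hwm : w ∈ (univ.filter fun x : K => x ≠ 0 ∧ M A y x = 0) := by rw [hw]; simp
  simp only [mem_filter, mem_univ, true_and] at hwm
  have hker : ∀ x, M A y x = 0 → x = 0 ∨ x = w := by
    intro x hx
    by_cases h0 : x = 0
    · exact Or.inl h0
    · right
      have : x ∈ (univ.filter fun x : K => x ≠ 0 ∧ M A y x = 0) := by simp [h0, hx]
      rw [hw] at this
      exact mem_singleton.1 this
  -- the range has at least card / 2 elements
  have h1 : Fintype.card K ≤ 2 * (univ.image (M A y)).card := by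
    have := card_le_mul_card_image (f := M A y) (univ : Finset K) 2 (by
      intro b hb
      obtain ⟨a, -, ha⟩ := mem_image.1 hb
      have hsub : (univ.filter fun x => M A y x = b) ⊆ {a, a + w} := by
        intro x hx
        simp only [mem_filter, mem_univ, true_and] at hx
        have h2 : M A y (x - a) = 0 := by rw [map_sub, hx, ha, sub_self]
        rcases hker _ h2 with h3 | h3
        · rw [mem_insert]; left; exact sub_eq_zero.1 h3
        · rw [mem_insert, mem_singleton]; right; rw [← h3]; ring
      exact (card_le_card hsub).trans card_le_two)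
    rwa [card_univ] at this
  have h2 : (S A B α y).card + (univ.image (M A y)).card ≤ Fintype.card K := by
    have h3 : (S A B α y).card = ((S A B α y).image fun s => α - B y - s).card :=
      (card_image_of_injective _ sub_right_injective).symm
    rw [h3, ← card_union_of_disjoint, ← card_univ]
    · exact card_le_card (subset_univ _)
    · rw [disjoint_left]
      intro t ht ht2
      obtain ⟨s, hs, rfl⟩ := mem_image.1 ht
      obtain ⟨x, -, hx⟩ := mem_image.1 ht2
      simp only [S, mem_filter, mem_univ, true_and] at hs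
      exact hs x hx
  omega

/-- the bad functions for `A`, `B`, `α` -/
def bad (A B : K →ₗ[ZMod 2] K) (α : K) : Finset (K → K) :=
  univ.filter fun g => (sols A B g α).card = 1

lemma card_bad (A B : K →ₗ[ZMod 2] K) (α : K) :
    (bad A B α).card * 2 ^ (Fintype.card K - 1) ≤ Fintype.card K ^ Fintype.card K := by
  by_cases hex : ∃ y0, ∀ y, y ≠ y0 → z A y = 1
  · obtain ⟨y0, hy0⟩ := hex
    have hzero : z A y0 = 0 := by
      have hce : ((univ : Finset K).erase y0).card = Fintype.card K - 1 := by
        rw [card_erase_of_mem (mem_univ _), card_univ]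
      have h1 : ∑ y ∈ univ.erase y0, z A y = Fintype.card K - 1 := by
        rw [← hce, card_eq_sum_ones]
        exact sum_congr rfl fun y hy => hy0 y (ne_of_mem_erase hy)
      have h2 : ∑ y ∈ univ.erase y0, z A y + z A y0 = Fintype.card K - 1 := by
        rw [← sum_z A, sum_erase_add _ _ (mem_univ _)]
      omega
    have hsub : bad A B α ⊆ Fintype.piFinset
        (fun y => if y = y0 then univ else S A B α y) := by
      intro g hg
      simp only [bad, mem_filter, mem_univ, true_and] at hg
      obtain ⟨y1, hy1⟩ := exists_y0 A B g α hg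
      have h01 : y1 = y0 := by
        by_contra hne
        have := (hy1 y0 (Ne.symm hne)).1
        omega
      rw [Fintype.mem_piFinset]
      intro y
      by_cases hy : y = y0
      · simp [hy]
      · simp only [hy, if_false]
        exact (hy1 y (by rw [h01]; exact hy)).2
    have h1 := card_le_card hsub
    rw [Fintype.card_piFinset] at h1
    have h2 : (∏ y, (if y = y0 then (univ : Finset K) else S A B α y).card) *
        2 ^ (Fintype.card K - 1) ≤ Fintype.card K ^ Fintype.card K := by
      have h3 : (2 : ℕ) ^ (Fintype.card K - 1) = ∏ y : K, (if y = y0 then 1 else 2) := by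
        rw [← mul_prod_erase _ _ (mem_univ y0)]
        simp only [if_true, one_mul]
        rw [prod_congr rfl (g := fun _ => 2) (fun y hy => if_neg (ne_of_mem_erase hy)),
          prod_const, card_erase_of_mem (mem_univ _), card_univ]
      rw [h3, ← prod_mul_distrib]
      calc _ ≤ ∏ _y : K, Fintype.card K := by
            refine prod_le_prod' fun y _ => ?_
            by_cases hy : y = y0
            · simp [hy]
            · simp only [hy, if_false]
              rw [mul_comm]
              exact card_S A B α y (hy0 y hy)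
        _ = _ := by rw [prod_const, card_univ]
    exact (Nat.mul_le_mul_right _ h1).trans h2
  · have : bad A B α = ∅ := by
      rw [eq_empty_iff_forall_notMem]
      intro g hg
      simp only [bad, mem_filter, mem_univ, true_and] at hg
      obtain ⟨y0, h⟩ := exists_y0 A B g α hg
      exact hex ⟨y0, fun y hy => (h y hy).1⟩
    rw [this]
    simp

lemma pow_ineq (k : ℕ) (hk : 7 ≤ k) : 2 * k ^ 2 + k + 1 < 2 ^ k := by
  induction k, hk using Nat.le_induction with
  | base => norm_num
  | succ k hk ih =>
    have h1 : (2 : ℕ) ^ (k + 1) = 2 * 2 ^ k := by rw [pow_succ]; ring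
    rw [h1]
    nlinarith [hk, ih]

omit [DecidableEq K] in
lemma card_lin (k : ℕ) (hK : Fintype.card K = 2 ^ k) :
    Nat.card (K →ₗ[ZMod 2] K) = 2 ^ (k ^ 2) := by
  have hf : Module.finrank (ZMod 2) K = k := by
    have h1 := Module.card_eq_pow_finrank (K := ZMod 2) (V := K)
    rw [hK, ZMod.card] at h1
    exact (Nat.pow_right_injective (le_refl 2) h1).symm
  rw [Module.natCard_eq_pow_finrank (K := ZMod 2), Module.finrank_linearMap, hf,
    Nat.card_eq_fintype_card, ZMod.card, sq]

lemma exists_g (k : ℕ) (hk : 7 ≤ k) (hK : Fintype.card K = 2 ^ k) :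
    ∃ g : K → K, ∀ (A B : K →ₗ[ZMod 2] K) (α : K), (sols A B g α).card ≠ 1 := by
  classical
  have hfin : Finite (K →ₗ[ZMod 2] K) := Module.finite_of_finite (ZMod 2)
  have hfin2 : Fintype (K →ₗ[ZMod 2] K) := Fintype.ofFinite _
  by_contra hcon
  push Not at hcon
  have hcov : (univ : Finset (K → K)) ⊆
      (univ : Finset (((K →ₗ[ZMod 2] K) × (K →ₗ[ZMod 2] K)) × K)).biUnion
        fun t => bad t.1.1 t.1.2 t.2 := by
    intro g _
    obtain ⟨A, B, α, h⟩ := hcon g
    rw [mem_biUnion]
    exact ⟨((A, B), α), mem_univ _, by simp [bad, h]⟩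
  have h1 := (card_le_card hcov).trans card_biUnion_le
  have h2 : (univ : Finset (K → K)).card * 2 ^ (Fintype.card K - 1) ≤
      (∑ t : (((K →ₗ[ZMod 2] K) × (K →ₗ[ZMod 2] K)) × K), (bad t.1.1 t.1.2 t.2).card) *
        2 ^ (Fintype.card K - 1) := Nat.mul_le_mul_right _ h1
  rw [sum_mul] at h2
  have h3 := h2.trans (sum_le_sum fun t _ => card_bad t.1.1 t.1.2 t.2)
  rw [sum_const, card_univ, card_univ, Fintype.card_prod, Fintype.card_prod, Fintype.card_fun,
    ← Nat.card_eq_fintype_card (α := K →ₗ[ZMod 2] K), card_lin k hK, smul_eq_mul, mul_comm] at h3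
  have h4 : 2 ^ (Fintype.card K - 1) ≤ 2 ^ k ^ 2 * 2 ^ k ^ 2 * Fintype.card K := by
    refine Nat.le_of_mul_le_mul_right h3 ?_
    exact pow_pos Fintype.card_pos _
  rw [hK, ← pow_add, ← pow_add] at h4
  have h5 := (Nat.pow_le_pow_iff_right (le_refl 2)).1 h4
  have h6 := pow_ineq k hk
  have : k ^ 2 + k ^ 2 + k = 2 * k ^ 2 + k := by ring
  omega

/-- `F (x, y) = x y + g y` -/
def F0 (g : K → K) (p : K × K) : K := p.1 * p.2 + g p.2

omit [Algebra (ZMod 2) K] in
lemma F0_bent (g : K → K) (hc : ∀ x : K, x + x = 0) (a : K × K) (ha : a ≠ 0) (b : K) :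
    (univ.filter fun p : K × K => F0 g (p + a) + F0 g p = b).card = Fintype.card K := by
  have hneg : ∀ x : K, -x = x := fun x => neg_eq_of_add_eq_zero_left (hc x)
  by_cases h2 : a.2 = 0
  · have h1 : a.1 ≠ 0 := by
      intro h1
      exact ha (Prod.ext h1 h2)
    rw [← card_univ]
    refine (card_bij (fun (x : K) _ => ((x, b / a.1) : K × K)) ?_ ?_ ?_).symm
    · intro x _
      simp only [mem_filter, mem_univ, true_and, F0, Prod.fst_add, Prod.snd_add, h2, add_zero]
      have : (x + a.1) * (b / a.1) + g (b / a.1) + (x * (b / a.1) + g (b / a.1)) =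
          a.1 * (b / a.1) + ((x * (b / a.1)) + (x * (b / a.1)))
            + (g (b / a.1) + g (b / a.1)) := by ring
      rw [this, hc, hc, add_zero, add_zero, mul_div_cancel₀ _ h1]
    · intro x _ y _ hxy
      exact (Prod.mk.inj hxy).1
    · intro p hp
      simp only [mem_filter, mem_univ, true_and, F0, Prod.fst_add, Prod.snd_add, h2, add_zero]
        at hp
      refine ⟨p.1, mem_univ _, Prod.ext rfl ?_⟩
      have : (p.1 + a.1) * p.2 + g p.2 + (p.1 * p.2 + g p.2) =
          a.1 * p.2 + (p.1 * p.2 + p.1 * p.2) + (g p.2 + g p.2) := by ring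
      rw [this, hc, hc, add_zero, add_zero] at hp
      simp only
      rw [← hp, mul_div_cancel_left₀ _ h1]
  · rw [← card_univ]
    refine (card_bij (fun (y : K) _ =>
      (((b - a.1 * y - a.1 * a.2 - g (y + a.2) - g y) / a.2, y) : K × K)) ?_ ?_ ?_).symm
    · intro y _
      rw [mem_filter]
      refine ⟨mem_univ _, ?_⟩
      simp only [F0, Prod.fst_add, Prod.snd_add]
      set t := (b - a.1 * y - a.1 * a.2 - g (y + a.2) - g y) / a.2 with ht
      have h3 : t * a.2 = b - a.1 * y - a.1 * a.2 - g (y + a.2) - g y := by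
        rw [ht, div_mul_cancel₀ _ h2]
      have : (t + a.1) * (y + a.2) + g (y + a.2) + (t * y + g y) =
          t * a.2 + (t * y + t * y) + a.1 * y + a.1 * a.2 + g (y + a.2) + g y := by ring
      rw [this, hc, h3]
      ring
    · intro x _ y _ hxy
      exact (Prod.mk.inj hxy).2
    · intro p hp
      rw [mem_filter] at hp
      replace hp := hp.2
      simp only [F0, Prod.fst_add, Prod.snd_add] at hp
      refine ⟨p.2, mem_univ _, Prod.ext ?_ rfl⟩
      have : (p.1 + a.1) * (p.2 + a.2) + g (p.2 + a.2) + (p.1 * p.2 + g p.2) =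
          p.1 * a.2 + (p.1 * p.2 + p.1 * p.2) + a.1 * p.2 + a.1 * a.2 + g (p.2 + a.2) + g p.2 := by
        ring
      rw [this, hc] at hp
      simp only
      rw [div_eq_iff h2]
      linear_combination -hp

end field

theorem main (k : ℕ) (hk : 7 ≤ k) :
    ∃ F : (Fin (2 * k) → ZMod 2) → (Fin k → ZMod 2), IsBent F ∧
      ∀ L : (Fin (2 * k) → ZMod 2) →ₗ[ZMod 2] (Fin k → ZMod 2),
        ¬ IsTypeMinus fun x => F x + L x := by
  classical
  have hk0 : k ≠ 0 := by omega
  let K := GaloisField 2 k
  have hfin : Finite K := inferInstance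
  let _ : Fintype K := Fintype.ofFinite K
  have hK : Fintype.card K = 2 ^ k := by
    rw [← Nat.card_eq_fintype_card]
    exact GaloisField.card 2 k hk0
  have hf : Module.finrank (ZMod 2) K = k := GaloisField.finrank 2 hk0
  have hc : ∀ x : K, x + x = 0 := fun x => CharTwo.add_self_eq_zero x
  obtain ⟨g, hg⟩ := exists_g (K := K) k hk hK
  have e1 : (Fin (2 * k) → ZMod 2) ≃ₗ[ZMod 2] K × K :=
    LinearEquiv.ofFinrankEq _ _ (by
      rw [Module.finrank_prod, hf, Module.finrank_fin_fun]; ring)
  have e2 : K ≃ₗ[ZMod 2] (Fin k → ZMod 2) :=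
    LinearEquiv.ofFinrankEq _ _ (by rw [hf, Module.finrank_fin_fun])
  refine ⟨fun x => e2 (F0 g (e1 x)), ?_, ?_⟩
  · intro a ha b
    have h1 : 2 * k - k = k := by omega
    rw [h1, ← hK, ← F0_bent g hc (e1 a) (by simpa using ha) (e2.symm b)]
    refine card_bij (fun x _ => e1 x) ?_ (fun x _ y _ h => e1.injective h) ?_
    · intro x hx
      simp only [mem_filter, mem_univ, true_and] at hx ⊢
      rw [← map_add e1, LinearEquiv.eq_symm_apply, map_add]
      exact hx
    · intro p hp
      simp only [mem_filter, mem_univ, true_and] at hp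
      refine ⟨e1.symm p, ?_, e1.apply_symm_apply p⟩
      simp only [mem_filter, mem_univ, true_and]
      rw [map_add, e1.apply_symm_apply, ← map_add, hp, e2.apply_symm_apply]
  · rintro L ⟨α, hα, -⟩
    have h1 : 2 * k - k = k := by omega
    have h2 : 2 * k / 2 = k := by omega
    rw [h1, h2, Nat.sub_self, sub_self, zero_add, pow_zero, pre] at hα
    have h3 : (univ.filter fun x => e2 (F0 g (e1 x)) + L x = α).card = 1 := by
      exact_mod_cast hα
    obtain ⟨Λ, hΛ⟩ : ∃ Λ : K × K →ₗ[ZMod 2] K, ∀ p, Λ p = e2.symm (L (e1.symm p)) :=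
      ⟨e2.symm.toLinearMap ∘ₗ L ∘ₗ e1.symm.toLinearMap, fun _ => rfl⟩
    have hsplit : ∀ p : K × K, (Λ ∘ₗ LinearMap.inl _ _ _) p.1 + (Λ ∘ₗ LinearMap.inr _ _ _) p.2 =
        Λ p := by
      intro p
      rw [LinearMap.comp_apply, LinearMap.comp_apply, ← map_add, LinearMap.inl_apply,
        LinearMap.inr_apply, Prod.mk_add_mk, add_zero, zero_add]
    refine hg (Λ ∘ₗ LinearMap.inl _ _ _) (Λ ∘ₗ LinearMap.inr _ _ _) (e2.symm α) ?_
    rw [← h3]
    refine (card_bij (fun x _ => e1 x) ?_ (fun x _ y _ h => e1.injective h) ?_).symm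
    · intro x hx
      simp only [mem_filter, mem_univ, true_and] at hx
      simp only [sols, mem_filter, mem_univ, true_and]
      rw [← hx, map_add, e2.symm_apply_apply, F0, hsplit, hΛ, e1.symm_apply_apply]
    · intro p hp
      simp only [sols, mem_filter, mem_univ, true_and] at hp
      refine ⟨e1.symm p, ?_, e1.apply_symm_apply p⟩
      simp only [mem_filter, mem_univ, true_and]
      rw [e1.apply_symm_apply]
      apply e2.symm.injective
      rw [map_add, e2.symm_apply_apply, ← hp, F0, hsplit, hΛ]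

/-- For every `k ≥ 7` there is a bent function `F : F_2^(2k) → F_2^k` such that no linear `L` makes
`F + L` almost balanced of type `(-)`. So the statement Q1 is false. -/
theorem result :
    (∀ k, 7 ≤ k → ∃ F : (Fin (2 * k) → ZMod 2) → (Fin k → ZMod 2), IsBent F ∧
      ∀ L : (Fin (2 * k) → ZMod 2) →ₗ[ZMod 2] (Fin k → ZMod 2),
        ¬ IsTypeMinus fun x => F x + L x) ∧
    ¬ ∀ n m : ℕ, Even n → 1 ≤ m → m ≤ n / 2 →
      ∀ F : (Fin n → ZMod 2) → (Fin m → ZMod 2), IsBent F →
        ∃ Lp Lm : (Fin n → ZMod 2) →ₗ[ZMod 2] (Fin m → ZMod 2),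
          IsTypePlus (fun x => F x + Lp x) ∧ IsTypeMinus (fun x => F x + Lm x) := by
  refine ⟨main, fun h => ?_⟩
  obtain ⟨F, hF, hL⟩ := main 7 le_rfl
  obtain ⟨-, Lm, -, h2⟩ := h (2 * 7) 7 (by decide) (by norm_num) (by norm_num) F hF
  exact hL Lm h2

end Pool.Agent.Results.MP_7d7944_co.NoMinus
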