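import Pool.Agent.R58.BentType

/-!
MP_7d7944_co, Q1 (negative answer): for every `m ≥ 7` there is a bent function
`F : F_2^{2m} → F_2^m` such that `F + L` is not almost balanced of type `(-)` for any linear `L`.
-/

namespace Pool.Agent.Results.MP_7d7944_co.NoMinusType

open Pool.Agent.R58.BentType

/-- the statement asked about in Q1 -/
def Q1 : Prop :=
  ∀ n m : ℕ, Even n → 1 ≤ m → m ≤ n / 2 →
    ∀ F : (Fin n → ZMod 2) → (Fin m → ZMod 2), IsBent F →
      (∃ L : (Fin n → ZMod 2) →ₗ[ZMod 2] (Fin m → ZMod 2), TypePlus (fun x => F x + L x)) ∧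
      (∃ L : (Fin n → ZMod 2) →ₗ[ZMod 2] (Fin m → ZMod 2), TypeMinus (fun x => F x + L x))

theorem result :
    ¬ Q1 ∧
    ∀ m : ℕ, 7 ≤ m → ∃ F : (Fin (2 * m) → ZMod 2) → (Fin m → ZMod 2), IsBent F ∧
      ¬ ∃ L : (Fin (2 * m) → ZMod 2) →ₗ[ZMod 2] (Fin m → ZMod 2),
        TypeMinus (fun x => F x + L x) := by
  refine ⟨?_, exists_bent⟩
  intro h
  obtain ⟨F, hF, hL⟩ := exists_bent 7 (le_refl _)
  exact hL (h (2 * 7) 7 (by decide) (by norm_num) (by norm_num) F hF).2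

end Pool.Agent.Results.MP_7d7944_co.NoMinusType
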